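import Pool.Agent.L0h4.T6.Iso3

/-!
# The isogeny of degree three and the 2-primary part of the Tate-Shafarevich group
-/

set_option autoImplicit false

attribute [-instance] DivisionRing.toRatAlgebra

namespace Pool.Agent.L0h4.T6

open WeierstrassCurve
open Pool.Agent.TH841.SH.D (Pt act Gal Coch IsCoc IsCob LocTriv cob cob_add cob_neg cob_zero)
open Pool.Agent.TH841.NF.D (IsShaCoc shaCoc Sha)

/-- a square root of `-3` -/
lemma ex_l (K : Type) [Field K] : ∃ l : AlgebraicClosure K, l ^ 2 = -3 :=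
  IsAlgClosed.exists_pow_nat_eq (-3) (by norm_num)

/-- a square root of `-3` -/
noncomputable def lb : AlgebraicClosure ℚ := Classical.choose (ex_l ℚ)

lemma lb_sq : lb ^ 2 = -3 := Classical.choose_spec (ex_l ℚ)

section
variable {a b r : ℚ} (ha : a ≠ 0) (hr : r ≠ 0) (hb : b = -27 * r ^ 6 * a)

/-- the image of a function -/
noncomputable def push (f : Coch (J a)) : Coch (J b) := fun σ => phi lb lb_sq hr hb (f σ)

lemma push_add (f g : Coch (J a)) : push hr hb (f + g) = push hr hb f + push hr hb g := by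
  funext σ
  exact map_add (phi lb lb_sq hr hb) (f σ) (g σ)

include ha in
lemma push_coc {f : Coch (J a)} (hf : IsCoc (J a) f) : IsCoc (J b) (push hr hb f) := by
  refine ⟨hf.1.comp _, fun σ τ => ?_⟩
  show phi lb lb_sq hr hb (f (σ * τ)) = phi lb lb_sq hr hb (f σ) +
    act (J b) σ.toAlgHom (phi lb lb_sq hr hb (f τ))
  rw [act_phi σ.toAlgHom lb lb_sq lb lb_sq ha hr hb, hf.2, map_add]

include ha in
lemma push_cob {f : Coch (J a)} (hf : IsCob (J a) f) : IsCob (J b) (push hr hb f) := by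
  obtain ⟨P, hP⟩ := hf
  refine ⟨phi lb lb_sq hr hb P, fun σ => ?_⟩
  show phi lb lb_sq hr hb (f σ) = act (J b) σ.toAlgHom (phi lb lb_sq hr hb P) -
    phi lb lb_sq hr hb P
  rw [act_phi σ.toAlgHom lb lb_sq lb lb_sq ha hr hb, hP, map_sub]

include ha in
lemma push_loc {K : Type} [Field K] [Algebra ℚ K] {f : Coch (J a)} (hf : LocTriv (J a) K f) :
    LocTriv (J b) K (push hr hb f) := by
  have : CharZero (AlgebraicClosure K) := algebraRat.charZero _
  intro ι
  obtain ⟨P, hP⟩ := hf ι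
  have hl : (ι lb) ^ 2 = -3 := by
    rw [← map_pow, lb_sq, map_neg, map_ofNat]
  refine ⟨phi (ι lb) hl hr hb P, fun τ σ h => ?_⟩
  show act (J b) ι (phi lb lb_sq hr hb (f σ)) = act (J b) (τ.toAlgHom.restrictScalars ℚ)
    (phi (ι lb) hl hr hb P) - phi (ι lb) hl hr hb P
  rw [act_phi ι lb lb_sq (ι lb) hl ha hr hb,
    act_phi (τ.toAlgHom.restrictScalars ℚ) (ι lb) hl (ι lb) hl ha hr hb, hP τ σ h, map_sub]

include ha in
lemma push_sha {f : Coch (J a)} (hf : IsShaCoc (J a) f) : IsShaCoc (J b) (push hr hb f) :=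
  ⟨push_coc ha hr hb hf.1, fun v => push_loc ha hr hb (hf.2.1 v),
    fun v => push_loc ha hr hb (hf.2.2 v)⟩

end

/-- the class of a cocycle -/
lemma cls_zero {W : WeierstrassCurve ℚ} (f : shaCoc W) :
    (QuotientAddGroup.mk f : Sha W) = 0 ↔ IsCob W f.1 := by
  have h := QuotientAddGroup.eq_zero_iff (N := (cob W).addSubgroupOf (shaCoc W)) f
  exact h.trans AddSubgroup.mem_addSubgroupOf

/-- **the isogeny of degree three and the 2-primary part** -/
theorem sha_three {a b r s : ℚ} (hb0 : b ≠ 0) (hr : r ≠ 0) (hs : s ≠ 0)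
    (hb : b = -27 * r ^ 6 * a) (hc : a = -27 * s ^ 6 * b) (hrs : r * s = 1 / 3) (n : ℕ)
    (h : ∀ x : Sha (J a), 2 ^ n • x = 0 → x = 0) (x : Sha (J b)) (hx : 2 ^ n • x = 0) :
    x = 0 := by
  have ha0 : a ≠ 0 := by
    rintro rfl
    apply hb0
    rw [hb, mul_zero]
  obtain ⟨f, rfl⟩ := QuotientAddGroup.mk_surjective x
  have h1 : IsCob (J b) (2 ^ n • f : shaCoc (J b)).1 := (cls_zero _).1 hx
  -- the preimage
  set g : shaCoc (J a) := ⟨push hs hc f.1, push_sha hb0 hs hc f.2⟩ with hg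
  have hnsmul : ∀ k : ℕ, push hs hc (k • f.1) = k • push hs hc f.1 := by
    intro k
    induction k with
    | zero =>
      rw [zero_smul, zero_smul]
      funext σ
      exact map_zero (phi lb lb_sq hs hc)
    | succ k ih => rw [succ_nsmul, push_add, ih, succ_nsmul]
  have h2 : (QuotientAddGroup.mk g : Sha (J a)) = 0 := by
    apply h
    have h3 : IsCob (J a) (2 ^ n • g : shaCoc (J a)).1 := by
      have e : (2 ^ n • g : shaCoc (J a)).1 = push hs hc (2 ^ n • f.1) := by
        rw [hnsmul]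
        rfl
      rw [e]
      exact push_cob hb0 hs hc h1
    exact (cls_zero _).2 h3
  have h4 := push_cob ha0 hr hb ((cls_zero _).1 h2)
  have h5 : push hr hb g.1 = (3 : ℕ) • f.1 := by
    funext σ
    show phi lb lb_sq hr hb (phi lb lb_sq hs hc (f.1 σ)) = (3 : ℕ) • f.1 σ
    exact phi_phi lb lb_sq hb0 hs hr hc hb (by rw [mul_comm]; exact hrs) _
  rw [h5] at h4
  refine (cls_zero f).2 ?_
  have hco : IsCoprime (3 : ℤ) (2 ^ n) := by
    apply IsCoprime.pow_right
    exact ⟨1, -1, by norm_num⟩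
  obtain ⟨u, w, huw⟩ := hco
  have e : f.1 = u • ((3 : ℕ) • f.1) + w • ((2 ^ n : ℕ) • f.1) := by
    rw [← natCast_zsmul, ← natCast_zsmul, smul_smul, smul_smul, ← add_smul]
    push_cast
    rw [huw, one_smul]
  have m3 : (3 : ℕ) • f.1 ∈ cob (J b) := h4
  have m2 : (2 ^ n : ℕ) • f.1 ∈ cob (J b) := h1
  have := (cob (J b)).add_mem ((cob (J b)).zsmul_mem m3 u) ((cob (J b)).zsmul_mem m2 w)
  rw [← e] at this
  exact this

end Pool.Agent.L0h4.T6
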