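import Pool.Agent.TH841.NF.Tm
import Pool.Agent.TH841.NF.ShaN

/-!
# The isogeny of degree three from `y² = x³ + a` to `y² = x³ - 27 r⁶ a` and the Tate-Shafarevich group
-/

set_option autoImplicit false

namespace Pool.Agent.L0h4.T6

open WeierstrassCurve
open Pool.Agent.TH841.NF
open Pool.Agent.TH841.SH.D

/-- the curve `y² = x³ + a` -/
def J (a : ℚ) : WeierstrassCurve ℚ := ⟨0, 0, 0, 0, a⟩

section
variable {L : Type} [Field L] [Algebra ℚ L]

lemma bJ_1 (a : ℚ) : ((J a).baseChange L).a₁ = 0 := map_zero _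
lemma bJ_2 (a : ℚ) : ((J a).baseChange L).a₂ = 0 := map_zero _
lemma bJ_3 (a : ℚ) : ((J a).baseChange L).a₃ = 0 := map_zero _
lemma bJ_4 (a : ℚ) : ((J a).baseChange L).a₄ = 0 := map_zero _
lemma bJ_6 (a : ℚ) : ((J a).baseChange L).a₆ = algebraMap ℚ L a := rfl

/-- a scaling -/
lemma sc {a b : ℚ} {u : L} (hu : u ≠ 0) (h : algebraMap ℚ L b = algebraMap ℚ L a * u ^ 6) :
    Sc (RingHom.id L) u ((J a).baseChange L) ((J b).baseChange L) where
  hu := hu
  h1 := by rw [bJ_1, bJ_1, map_zero, zero_mul]
  h2 := by rw [bJ_2, bJ_2, map_zero, zero_mul]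
  h3 := by rw [bJ_3, bJ_3, map_zero, zero_mul]
  h4 := by rw [bJ_4, bJ_4, map_zero, zero_mul]
  h6 := by rw [bJ_6, bJ_6, h]; rfl

/-- the scaling on points -/
noncomputable def tL {a b : ℚ} {u : L} (hu : u ≠ 0)
    (h : algebraMap ℚ L b = algebraMap ℚ L a * u ^ 6) : Pt (J a) L →+ Pt (J b) L :=
  letI := Classical.decEq L
  { toFun := tF (sc hu h)
    map_zero' := rfl
    map_add' := fun P Q => tF_add (sc hu h) P Q }

/-- a point -/
def pt {a : ℚ} (x y : L) (h : ((J a).baseChange L).toAffine.Nonsingular x y) : Pt (J a) L :=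
  Affine.Point.some x y h

/-- the points are equal if their coordinates are -/
lemma some_ext {a : ℚ} {x y x' y' : L}
    (h : ((J a).baseChange L).toAffine.Nonsingular x y)
    (h' : ((J a).baseChange L).toAffine.Nonsingular x' y') (hx : x = x') (hy : y = y') :
    (Affine.Point.some x y h : Pt (J a) L) = Affine.Point.some x' y' h' := by
  subst hx
  subst hy
  rfl

lemma tL_some {a b : ℚ} {u : L} (hu : u ≠ 0)
    (h : algebraMap ℚ L b = algebraMap ℚ L a * u ^ 6) {x y : L}
    (hxy : ((J a).baseChange L).toAffine.Nonsingular x y) :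
    tL hu h (Affine.Point.some x y hxy : Pt (J a) L) =
      (Affine.Point.some (x * u ^ 2) (y * u ^ 3) ((ns_iff (sc hu h) x y).2 hxy) : Pt (J b) L) := rfl

/-- two scalings -/
lemma tL_tL {a b c : ℚ} {u w : L} (hu : u ≠ 0) (hw : w ≠ 0)
    (h : algebraMap ℚ L b = algebraMap ℚ L a * u ^ 6)
    (h' : algebraMap ℚ L c = algebraMap ℚ L b * w ^ 6)
    (h'' : algebraMap ℚ L c = algebraMap ℚ L a * (u * w) ^ 6) (P : Pt (J a) L) :
    tL hw h' (tL hu h P) = tL (mul_ne_zero hu hw) h'' P := by
  match P with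
  | 0 => rfl
  | .some x y hxy =>
    rw [tL_some, tL_some, tL_some]
    exact some_ext _ _ (by ring) (by ring)

/-- the scaling by `-1` -/
lemma tL_neg {a : ℚ} {u : L} (hu : u ≠ 0) (h : algebraMap ℚ L a = algebraMap ℚ L a * u ^ 6)
    (h2 : u ^ 2 = 1) (h3 : u ^ 3 = -1) (P : Pt (J a) L) : tL hu h P = -P := by
  classical
  match P with
  | 0 => rfl
  | .some x y hxy =>
    rw [tL_some]
    show _ = (-(Affine.Point.some x y hxy) : ((J a).baseChange L).toAffine.Point)
    rw [Affine.Point.neg_some]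
    refine some_ext _ _ ?_ ?_
    · rw [h2, mul_one]
    · rw [h3]
      unfold Affine.negY
      rw [bJ_1, bJ_3]
      ring

/-- equal scalings -/
lemma tL_congr {a b : ℚ} {u w : L} (hu : u ≠ 0) (hw : w ≠ 0)
    (h : algebraMap ℚ L b = algebraMap ℚ L a * u ^ 6)
    (h' : algebraMap ℚ L b = algebraMap ℚ L a * w ^ 6) (h2 : u ^ 2 = w ^ 2) (h3 : u ^ 3 = w ^ 3)
    (P : Pt (J a) L) : tL hu h P = tL hw h' P := by
  match P with
  | 0 => rfl
  | .some x y hxy =>
    rw [tL_some, tL_some]
    exact some_ext _ _ (by rw [h2]) (by rw [h3])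

variable (l : L) (hl : l ^ 2 = -3)

/-- the primitive third root of unity -/
noncomputable def ro : L := (-1 + l) / 2

lemma two_ne' [CharZero L] : (2 : L) ≠ 0 := two_ne_zero

include hl in
lemma ro_eq [CharZero L] : ro l ^ 2 + ro l + 1 = 0 := by
  have h2 : (2 : L) ≠ 0 := two_ne_zero
  unfold ro
  field_simp
  linear_combination hl

include hl in
lemma ro_cube [CharZero L] : ro l ^ 3 = 1 := by
  linear_combination (ro l - 1) * ro_eq l hl

include hl in
lemma ro_ne [CharZero L] : ro l ≠ 0 := by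
  intro h
  have := ro_cube l hl
  rw [h] at this
  norm_num at this

include hl in
lemma ro_six [CharZero L] (a : ℚ) :
    algebraMap ℚ L a = algebraMap ℚ L a * ro l ^ 6 := by
  have : ro l ^ 6 = 1 := by
    have : ro l ^ 6 = (ro l ^ 3) ^ 2 := by ring
    rw [this, ro_cube l hl, one_pow]
  rw [this, mul_one]

/-- the automorphism -/
noncomputable def AA [CharZero L] (a : ℚ) : Pt (J a) L →+ Pt (J a) L :=
  tL (ro_ne l hl) (ro_six l hl a)

/-- three points on a horizontal line -/
lemma sum_line {a : ℚ} {x₁ x₂ y : L} (hy : y ≠ -y)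
    (h₁ : ((J a).baseChange L).toAffine.Nonsingular x₁ y)
    (h₂ : ((J a).baseChange L).toAffine.Nonsingular x₂ y)
    (h₃ : ((J a).baseChange L).toAffine.Nonsingular (-x₁ - x₂) y) (h12 : x₁ = x₂ → x₁ = 0) :
    pt x₁ y h₁ + pt x₂ y h₂ = -pt (-x₁ - x₂) y h₃ := by
  letI := Classical.decEq L
  have hn : ∀ x' y' : L, ((J a).baseChange L).toAffine.negY x' y' = -y' := by
    intro x' y'
    unfold Affine.negY
    rw [bJ_1, bJ_3]
    ring
  have hxy : ¬ (x₁ = x₂ ∧ y = ((J a).baseChange L).toAffine.negY x₂ y) := by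
    rintro ⟨-, h⟩
    rw [hn] at h
    exact hy h
  have hs : ((J a).baseChange L).toAffine.slope x₁ x₂ y y = 0 := by
    by_cases h : x₁ = x₂
    · rw [Affine.slope_of_Y_ne h (fun h' => hxy ⟨h, h'⟩), h12 h, bJ_1, bJ_2, bJ_4]
      ring
    · rw [Affine.slope_of_X_ne h, sub_self, zero_div]
  change (Affine.Point.some x₁ y h₁ : ((J a).baseChange L).toAffine.Point) +
    (Affine.Point.some x₂ y h₂ : ((J a).baseChange L).toAffine.Point) =
      -(Affine.Point.some (-x₁ - x₂) y h₃ : ((J a).baseChange L).toAffine.Point)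
  rw [Affine.Point.add_some hxy, Affine.Point.neg_some]
  refine some_ext _ _ ?_ ?_
  · unfold Affine.addX
    rw [hs, bJ_1, bJ_2]
    ring
  · unfold Affine.addY Affine.negAddY
    rw [hs, hn, hn]
    ring

/-- the relation `1 + ω + ω² = 0` -/
lemma AA_rel [CharZero L] {a : ℚ} (ha : a ≠ 0) (P : Pt (J a) L) :
    P + AA l hl a P + AA l hl a (AA l hl a P) = 0 := by
  have hcub := ro_cube l hl
  have hrel := ro_eq l hl
  match P with
  | 0 =>
    show (0 : Pt (J a) L) + AA l hl a 0 + AA l hl a (AA l hl a 0) = 0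
    rw [map_zero, map_zero, add_zero, add_zero]
  | .some x y hxy =>
    have heq := hxy.1
    rw [Affine.equation_iff, bJ_1, bJ_2, bJ_3, bJ_4, bJ_6] at heq
    have ha' : algebraMap ℚ L a ≠ 0 := (map_ne_zero _).2 ha
    have hA : ∀ {x' y' : L} (h' : ((J a).baseChange L).toAffine.Nonsingular x' y'),
        AA l hl a (pt x' y' h') = pt (x' * ro l ^ 2) (y' * ro l ^ 3)
            ((ns_iff (sc (ro_ne l hl) (ro_six l hl a)) x' y').2 h') := fun h' => rfl
    change pt x y hxy + AA l hl a (pt x y hxy) + AA l hl a (AA l hl a (pt x y hxy)) = 0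
    have h1 : ((J a).baseChange L).toAffine.Nonsingular (x * ro l ^ 2) y := by
      have := (ns_iff (sc (ro_ne l hl) (ro_six l hl a)) x y).2 hxy
      change ((J a).baseChange L).toAffine.Nonsingular (x * ro l ^ 2) (y * ro l ^ 3) at this
      rwa [hcub, mul_one] at this
    have h2 : ((J a).baseChange L).toAffine.Nonsingular (x * ro l) y := by
      have := (ns_iff (sc (ro_ne l hl) (ro_six l hl a)) _ y).2 h1
      change ((J a).baseChange L).toAffine.Nonsingular (x * ro l ^ 2 * ro l ^ 2) (y * ro l ^ 3)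
        at this
      rw [hcub, mul_one] at this
      have e : x * ro l ^ 2 * ro l ^ 2 = x * ro l := by linear_combination x * ro l * hcub
      rwa [e] at this
    have e1 : AA l hl a (pt x y hxy) = pt (x * ro l ^ 2) y h1 := by
      rw [hA]
      exact some_ext _ _ rfl (by rw [hcub, mul_one])
    have e2 : AA l hl a (pt (x * ro l ^ 2) y h1) = pt (x * ro l) y h2 := by
      rw [hA]
      exact some_ext _ _ (by linear_combination x * ro l * hcub) (by rw [hcub, mul_one])
    rw [e1, e2]
    have h3 : ((J a).baseChange L).toAffine.Nonsingular (-x - x * ro l ^ 2) y := by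
      have e : -x - x * ro l ^ 2 = x * ro l := by linear_combination -x * hrel
      rw [e]
      exact h2
    have hc0 : (2 : L) ≠ 0 := two_ne_zero
    have hy0 : y ≠ -y ∨ y = 0 := by
      by_cases h : y = -y
      · right
        have : 2 * y = 0 := by linear_combination h
        exact (mul_eq_zero.1 this).resolve_left hc0
      · exact Or.inl h
    rcases hy0 with hy0 | hy0
    · rw [sum_line hy0 hxy h1 h3]
      · have e3 : pt (-x - x * ro l ^ 2) y h3 = pt (x * ro l) y h2 :=
          some_ext _ _ (by linear_combination -x * hrel) rfl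
        rw [e3, neg_add_cancel]
      · intro h
        have h4 : x * (1 - ro l ^ 2) = 0 := by linear_combination h
        rcases mul_eq_zero.1 h4 with h5 | h5
        · exact h5
        · exfalso
          have h6 : ro l = 1 := by
            have : ro l * ro l ^ 2 = ro l := by rw [← sub_eq_zero.1 h5, mul_one]
            rw [← this, ← hcub]
            ring
          rw [h6] at hrel
          norm_num at hrel
    · -- the points of order two
      letI := Classical.decEq L
      have hx0 : x ≠ 0 := by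
        rintro rfl
        rw [hy0] at heq
        apply ha'
        linear_combination -heq
      have hn : ∀ x' y' : L, ((J a).baseChange L).toAffine.negY x' y' = -y' := by
        intro x' y'
        unfold Affine.negY
        rw [bJ_1, bJ_3]
        ring
      have hr1 : ro l ≠ 1 := by
        intro h6
        rw [h6] at hrel
        norm_num at hrel
      have h12 : x ≠ x * ro l ^ 2 := by
        intro h
        have h4 : x * (1 - ro l ^ 2) = 0 := by linear_combination h
        rcases mul_eq_zero.1 h4 with h5 | h5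
        · exact hx0 h5
        · apply hr1
          have : ro l * ro l ^ 2 = ro l := by rw [← sub_eq_zero.1 h5, mul_one]
          rw [← this, ← hcub]
          ring
      have hs : ((J a).baseChange L).toAffine.slope x (x * ro l ^ 2) y y = 0 := by
        rw [Affine.slope_of_X_ne h12, sub_self, zero_div]
      change (Affine.Point.some x y hxy : ((J a).baseChange L).toAffine.Point) +
        (Affine.Point.some (x * ro l ^ 2) y h1 : ((J a).baseChange L).toAffine.Point) +
        (Affine.Point.some (x * ro l) y h2 : ((J a).baseChange L).toAffine.Point) = 0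
      rw [Affine.Point.add_some (fun h => h12 h.1), Affine.Point.add_of_Y_eq]
      · unfold Affine.addX
        rw [hs, bJ_1, bJ_2]
        linear_combination -x * hrel
      · unfold Affine.addY Affine.negAddY
        rw [hs, hn, hn]
        ring

include hl in
lemma l_ne [CharZero L] : l ≠ 0 := by
  rintro rfl
  norm_num at hl

include hl in
lemma l_six [CharZero L] : l ^ 6 = -27 := by
  have : l ^ 6 = (l ^ 2) ^ 3 := by ring
  rw [this, hl]
  norm_num

include hl in
lemma phi_u [CharZero L] {r : ℚ} (hr : r ≠ 0) : algebraMap ℚ L r * l ≠ 0 :=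
  mul_ne_zero ((map_ne_zero _).2 hr) (l_ne l hl)

include hl in
lemma phi_h [CharZero L] {a b r : ℚ} (hb : b = -27 * r ^ 6 * a) :
    algebraMap ℚ L b = algebraMap ℚ L a * (algebraMap ℚ L r * l) ^ 6 := by
  rw [hb, mul_pow, l_six l hl]
  simp only [map_mul, map_neg, map_pow, map_ofNat]
  ring

/-- **the isogeny of degree three** -/
noncomputable def phi [CharZero L] {a b r : ℚ} (hr : r ≠ 0) (hb : b = -27 * r ^ 6 * a) :
    Pt (J a) L →+ Pt (J b) L :=
  (tL (phi_u l hl hr) (phi_h l hl hb)).comp (AddMonoidHom.id _ + AA l hl a + AA l hl a)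

lemma phi_apply [CharZero L] {a b r : ℚ} (hr : r ≠ 0) (hb : b = -27 * r ^ 6 * a)
    (P : Pt (J a) L) : phi l hl hr hb P =
      tL (phi_u l hl hr) (phi_h l hl hb) (P + AA l hl a P + AA l hl a P) := rfl

/-- the scalings commute with the automorphism -/
lemma AA_tL [CharZero L] {a b : ℚ} {u : L} (hu : u ≠ 0)
    (h : algebraMap ℚ L b = algebraMap ℚ L a * u ^ 6) (P : Pt (J a) L) :
    AA l hl b (tL hu h P) = tL hu h (AA l hl a P) := by
  match P with
  | 0 => rfl
  | .some x y hxy =>
    refine some_ext _ _ ?_ ?_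
    · show x * u ^ 2 * ro l ^ 2 = x * ro l ^ 2 * u ^ 2
      ring
    · show y * u ^ 3 * ro l ^ 3 = y * ro l ^ 3 * u ^ 3
      ring

/-- the composition with the dual isogeny -/
theorem phi_phi [CharZero L] {a b r s : ℚ} (ha : a ≠ 0) (hr : r ≠ 0) (hs : s ≠ 0)
    (hb : b = -27 * r ^ 6 * a) (hc : a = -27 * s ^ 6 * b) (hrs : r * s = 1 / 3)
    (P : Pt (J a) L) : phi l hl hs hc (phi l hl hr hb P) = (3 : ℕ) • P := by
  have h1 := AA_rel l hl ha P
  have hu : (algebraMap ℚ L r * l) * (algebraMap ℚ L s * l) = -1 := by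
    have : (algebraMap ℚ L r * l) * (algebraMap ℚ L s * l) = algebraMap ℚ L (r * s) * l ^ 2 := by
      rw [map_mul]
      ring
    rw [this, hrs, hl]
    simp only [map_div₀, map_one, map_ofNat]
    norm_num
  have h6 : algebraMap ℚ L a = algebraMap ℚ L a *
      ((algebraMap ℚ L r * l) * (algebraMap ℚ L s * l)) ^ 6 := by
    rw [hu]
    ring
  rw [phi_apply, phi_apply, AA_tL, ← map_add, ← map_add, tL_tL _ _ _ _ h6,
    tL_neg _ _ (by rw [hu]; ring) (by rw [hu]; ring)]
  simp only [map_add]
  have h2 : AA l hl a (AA l hl a P) = -(P + AA l hl a P) := by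
    rw [eq_neg_iff_add_eq_zero, add_comm]
    exact h1
  rw [h2]
  abel

lemma ro_neg : ro (-l) = (-1 - l) / 2 := by
  unfold ro
  rw [sub_eq_add_neg]

/-- the isogeny does not depend on the choice of the square root of `-3` -/
theorem phi_neg [CharZero L] (hl' : (-l) ^ 2 = -3) {a b r : ℚ} (ha : a ≠ 0) (hr : r ≠ 0)
    (hb : b = -27 * r ^ 6 * a) (P : Pt (J a) L) : phi (-l) hl' hr hb P = phi l hl hr hb P := by
  have h2 : (2 : L) ≠ 0 := two_ne_zero
  have hro : ro (-l) = ro l * ro l := by
    have := ro_eq l hl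
    have e : ro l * ro l = -1 - ro l := by linear_combination this
    rw [e, ro_neg]
    unfold ro
    field_simp
    ring
  have h6 : algebraMap ℚ L a = algebraMap ℚ L a * (ro l * ro l) ^ 6 := by
    have h := ro_cube l hl
    have e : (ro l * ro l) ^ 6 = (ro l ^ 3) ^ 4 := by ring
    rw [e, h]
    ring
  have hA : AA (-l) hl' a P = AA l hl a (AA l hl a P) := by
    unfold AA
    rw [tL_tL _ _ _ _ h6]
    exact tL_congr _ _ _ _ (by rw [hro]) (by rw [hro]) P
  have h1 := AA_rel l hl ha P
  have h3 : AA l hl a (AA l hl a P) = -(P + AA l hl a P) := by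
    rw [eq_neg_iff_add_eq_zero, add_comm]
    exact h1
  have hT : ∀ Q : Pt (J a) L, tL (phi_u (-l) hl' hr) (phi_h (-l) hl' hb) Q =
      -tL (phi_u l hl hr) (phi_h l hl hb) Q := by
    intro Q
    have h7 : algebraMap ℚ L b = algebraMap ℚ L b * (-1) ^ 6 := by ring
    rw [← tL_neg (a := b) (u := (-1 : L)) (neg_ne_zero.2 one_ne_zero) h7 (by ring) (by ring)]
    have h8 : algebraMap ℚ L b = algebraMap ℚ L a * (algebraMap ℚ L r * l * -1) ^ 6 := by
      rw [phi_h l hl hb]
      ring
    rw [tL_tL _ _ _ _ h8]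
    exact tL_congr _ _ _ _ (by ring) (by ring) Q
  rw [phi_apply, phi_apply, hT, hA, h3, ← map_neg]
  congr 1
  abel

end

/-! ### the action of the homomorphisms of fields -/

section
variable {F L : Type} [Field F] [Field L] [Algebra ℚ F] [Algebra ℚ L]

lemma act_pt {a : ℚ} (g : F →ₐ[ℚ] L) (x y : F)
    (h : ((J a).baseChange F).toAffine.Nonsingular x y) :
    ∃ h', act (J a) g (pt x y h) = pt (g x) (g y) h' := ⟨_, rfl⟩

lemma act_tL {a b : ℚ} (g : F →ₐ[ℚ] L) {u : F} {w : L} (hu : u ≠ 0) (hw : w ≠ 0)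
    (h : algebraMap ℚ F b = algebraMap ℚ F a * u ^ 6)
    (h' : algebraMap ℚ L b = algebraMap ℚ L a * w ^ 6) (hgu : g u = w) (P : Pt (J a) F) :
    act (J b) g (tL hu h P) = tL hw h' (act (J a) g P) := by
  match P with
  | 0 =>
    change act (J b) g (tL hu h 0) = tL hw h' (act (J a) g 0)
    rw [map_zero, map_zero, map_zero, map_zero]
  | .some x y hxy =>
    refine some_ext _ _ ?_ ?_
    · show g (x * u ^ 2) = g x * w ^ 2
      rw [map_mul, map_pow, hgu]
    · show g (y * u ^ 3) = g y * w ^ 3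
      rw [map_mul, map_pow, hgu]

lemma g_ro (g : F →ₐ[ℚ] L) (l : F) : g (ro l) = ro (g l) := by
  unfold ro
  rw [map_div₀, map_add, map_neg, map_one, map_ofNat]

/-- the isogeny commutes with the homomorphisms of fields -/
theorem act_phi [CharZero F] [CharZero L] (g : F →ₐ[ℚ] L) (l : F) (hl : l ^ 2 = -3) (m : L)
    (hm : m ^ 2 = -3) {a b r : ℚ} (ha : a ≠ 0) (hr : r ≠ 0) (hb : b = -27 * r ^ 6 * a)
    (P : Pt (J a) F) : act (J b) g (phi l hl hr hb P) = phi m hm hr hb (act (J a) g P) := by
  have key : ∀ (hg : g l = m), act (J b) g (phi l hl hr hb P) =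
      phi m hm hr hb (act (J a) g P) := by
    intro hg
    have h1 : act (J a) g (AA l hl a P) = AA m hm a (act (J a) g P) :=
      act_tL g _ _ _ _ (by rw [g_ro, hg]) P
    have h5 : act (J a) g (P + AA l hl a P + AA l hl a P) =
        act (J a) g P + AA m hm a (act (J a) g P) + AA m hm a (act (J a) g P) := by
      rw [map_add, map_add, h1]
    rw [phi_apply, phi_apply, act_tL g _ (phi_u m hm hr) _ (phi_h m hm hb)
      (by rw [map_mul, hg]; congr 1; exact g.commutes r), h5]
  have h1 : (g l - m) * (g l + m) = 0 := by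
    have h2 : (g l) ^ 2 = -3 := by
      rw [← map_pow, hl, map_neg, map_ofNat]
    linear_combination h2 - hm
  rcases mul_eq_zero.1 h1 with h2 | h2
  · exact key (sub_eq_zero.1 h2)
  · have hm' : (-m) ^ 2 = -3 := by rw [neg_sq, hm]
    have h3 : g l = -m := eq_neg_of_add_eq_zero_left h2
    rw [← phi_neg m hm hm' ha hr hb]
    have h4 : act (J a) g (AA l hl a P) = AA (-m) hm' a (act (J a) g P) :=
      act_tL g _ _ _ _ (by rw [g_ro, h3]) P
    have h5 : act (J a) g (P + AA l hl a P + AA l hl a P) =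
        act (J a) g P + AA (-m) hm' a (act (J a) g P) + AA (-m) hm' a (act (J a) g P) := by
      rw [map_add, map_add, h4]
    rw [phi_apply, phi_apply, act_tL g _ (phi_u (-m) hm' hr) _ (phi_h (-m) hm' hb)
      (by rw [map_mul, h3]; congr 1; exact g.commutes r), h5]

end

end Pool.Agent.L0h4.T6
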